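import Mathlib
import Pool.Agent.Lib.MP_988dcd_pr.Sums

set_option autoImplicit false

open MeasureTheory ProbabilityTheory

namespace Pool.Agent.Results.MP_988dcd_pr.RandomFirstPlayer

/-- The parameter `1/2` of a fair coin. -/
noncomputable def half : unitInterval := ⟨1 / 2, by norm_num, by norm_num⟩

/-- The law of an infinite sequence of independent fair coin tosses (`true` is heads). -/
noncomputable def fairCoin : Measure (ℕ → Bool) :=
  Measure.infinitePi (fun _ : ℕ => bernoulliMeasure true false half)

/-- The string `A` is the block of tosses number `t, t + 1, …, t + n - 1`. -/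
def occursAt {n : ℕ} (A : Fin n → Bool) (ω : ℕ → Bool) (t : ℕ) : Prop :=
  ∀ i : Fin n, ω (t + i) = A i

/-- The event that `B` appears before `A`: some block of tosses is `B`, and no block starting at
the same time or earlier is `A`. -/
def appearsBefore {n : ℕ} (B A : Fin n → Bool) : Set (ℕ → Bool) :=
  {ω | ∃ t, occursAt B ω t ∧ ∀ s ≤ t, ¬ occursAt A ω s}

/-- The probability `P(B ≺ A)` that `B` appears before `A`. -/
noncomputable def winProb {n : ℕ} (B A : Fin n → Bool) : ℝ := (fairCoin (appearsBefore B A)).toReal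

/-- Player II's winning probability with a best reply to `A`. -/
noncomputable def bestReply {n : ℕ} (A : Fin n → Bool) : ℝ :=
  ⨆ B : {B : Fin n → Bool // B ≠ A}, winProb B.1 A

/-- Player II's winning probability when Player I's string of length `n` is uniformly random and
Player II gives a best reply. -/
noncomputable def pRandOpt (n : ℕ) : ℝ := (∑ A : Fin n → Bool, bestReply A) / 2 ^ n

/-- `p_n^{rand,opt} = 2/3 + (2/3) n / 2^n + O(1 / 2^n)`, with an explicit constant. -/
theorem result (n : ℕ) (hn : 1 ≤ n) :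
    |pRandOpt n - (2 / 3 + (2 / 3) * ((n : ℝ) / 2 ^ n))| ≤ 86 / 2 ^ n := by
  have h := Pool.Agent.Lib.MP_988dcd_pr.sum_best hn
  have e : ∑ A : Fin n → Bool, bestReply A =
      ∑ A : Fin n → Bool, Pool.Agent.Lib.MP_988dcd_pr.best A := rfl
  unfold pRandOpt
  rw [e]
  have h2 : (0 : ℝ) < 2 ^ n := by positivity
  have h3 : (∑ A : Fin n → Bool, Pool.Agent.Lib.MP_988dcd_pr.best A) / 2 ^ n -
      (2 / 3 + (2 / 3) * ((n : ℝ) / 2 ^ n)) =
      (∑ A : Fin n → Bool, Pool.Agent.Lib.MP_988dcd_pr.best A - (2 / 3) * 2 ^ n - (2 / 3) * n) / 2 ^ n := by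
    field_simp
    ring
  rw [h3, abs_div, abs_of_pos h2]
  exact div_le_div_of_nonneg_right h h2.le

end Pool.Agent.Results.MP_988dcd_pr.RandomFirstPlayer
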